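import Pool.Agent.Helper88.QR.StmtsB

/-!
# Row B06 of QR: from an outer corner to the next one
-/

namespace QRB74

open QR QRB

theorem st_B06 (h5 : ST_B05) : ST_B06 := by
  intro C V F _ _ _ τ α lab vt fc O hL b hb
  have hex : ∃ j : ℕ, 0 < j ∧ (τ ^ j) b = α b := by
    obtain ⟨i, hi, _, he⟩ := (hL.cyc b (α b)).exists_pow_eq''
    exact ⟨i, hi, he⟩
  classical
  obtain ⟨hj0, hje⟩ := Nat.find_spec hex
  set j := Nat.find hex with hjdef
  have hmin : ∀ i, 0 < i → i < j → (τ ^ i) b ≠ α b := by
    intro i hi hij he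
    exact Nat.find_min hex hij ⟨hi, he⟩
  -- distinctness
  have hinj : ∀ p q : ℕ, 1 ≤ p → p < q → q ≤ j → (τ ^ p) b ≠ (τ ^ q) b := by
    intro p q hp hpq hqj he
    refine hmin (j - q + p) (by omega) (by omega) ?_
    rw [pow_add, Equiv.Perm.mul_apply, he, ← Equiv.Perm.mul_apply, ← pow_add,
      Nat.sub_add_cancel hqj]
    exact hje
  let g : Fin j → C := fun i => (τ ^ ((i : ℕ) + 1)) b
  have hg : Function.Injective g := by
    intro x y hxy
    rcases lt_trichotomy (x : ℕ) (y : ℕ) with h | h | h
    · exact absurd hxy (hinj _ _ (by omega) (by omega) (by have := y.2; omega))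
    · exact Fin.ext h
    · exact absurd hxy.symm (hinj _ _ (by omega) (by omega) (by have := x.2; omega))
  have hjn : j ≤ Nat.card C := by
    have := Nat.card_le_card_of_injective g hg
    simpa using this
  rcases Nat.lt_or_ge j (Nat.card C) with hlt | hge
  · -- the interval is closed
    have hcl := h5 C V F τ α lab vt fc O hL b j (by omega) hlt hje.symm
    refine ⟨j, by omega, hjn, hje.symm, fun i hi hij => ⟨fun hO => ?_, hcl i hi hij⟩⟩
    have hs : α.SameCycle ((τ ^ i) b) (α b) :=
      (hL.outer _ _ hO hb).trans ⟨1, by simp⟩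
    obtain ⟨k, _, hk⟩ := hs.exists_pow_eq'
    have key : ∀ k : ℕ, ∃ i', 1 ≤ i' ∧ i' < j ∧ (α ^ k) ((τ ^ i) b) = (τ ^ i') b := by
      intro k
      induction k with
      | zero => exact ⟨i, hi, hij, rfl⟩
      | succ k ih =>
        obtain ⟨i', h1, h2, h3⟩ := ih
        obtain ⟨i'', h4, h5', h6⟩ := hcl i' h1 h2
        refine ⟨i'', h4, h5', ?_⟩
        rw [pow_succ', Equiv.Perm.mul_apply, h3, h6]
    obtain ⟨i', h1, h2, h3⟩ := key k
    exact hmin i' (by omega) h2 (by rw [← h3, hk])
  · -- only one outer corner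
    have hjc : j = Nat.card C := le_antisymm hjn hge
    have hbij : Function.Bijective g := by
      haveI : Fintype C := Fintype.ofFinite C
      rw [Fintype.bijective_iff_injective_and_card]
      refine ⟨hg, ?_⟩
      rw [Fintype.card_fin, hjc, Nat.card_eq_fintype_card]
    have hbn : ∀ i, 1 ≤ i → i < j → (τ ^ i) b ≠ b := by
      intro i hi hij he
      refine hmin (j - i) (by omega) (by omega) ?_
      conv_lhs => rw [← he]
      rw [← Equiv.Perm.mul_apply, ← pow_add, Nat.sub_add_cancel (by omega)]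
      exact hje
    have hab : α b = b := by
      obtain ⟨x, hx⟩ := hbij.2 b
      have hx' : (τ ^ ((x : ℕ) + 1)) b = b := hx
      have : (x : ℕ) + 1 = j := by
        by_contra hne
        exact hbn _ (by omega) (by have := x.2; omega) hx'
      rw [this] at hx'
      rw [← hje, hx']
    refine ⟨j, by omega, hjn, hje.symm, fun i hi hij => ⟨fun hO => ?_, ?_⟩⟩
    · have hs : α.SameCycle b ((τ ^ i) b) := hL.outer _ _ hb hO
      obtain ⟨k, _, hk⟩ := hs.exists_pow_eq'
      have key : ∀ k : ℕ, (α ^ k) b = b := by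
        intro k
        induction k with
        | zero => rfl
        | succ k ih => rw [pow_succ', Equiv.Perm.mul_apply, ih, hab]
      rw [key] at hk
      exact hbn i hi hij hk.symm
    · obtain ⟨x, hx⟩ := hbij.2 (α ((τ ^ i) b))
      have hx' : (τ ^ ((x : ℕ) + 1)) b = α ((τ ^ i) b) := hx
      refine ⟨(x : ℕ) + 1, by omega, ?_, hx'.symm⟩
      have hxj : (x : ℕ) + 1 ≤ j := by have := x.2; omega
      rcases Nat.lt_or_ge ((x : ℕ) + 1) j with h | h
      · exact h
      · exfalso
        have he : (x : ℕ) + 1 = j := le_antisymm hxj h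
        rw [he, hje] at hx'
        exact hbn i hi hij (α.injective hx').symm

end QRB74
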