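import Pool.Agent.Helper88.QR.StmtsB

/-!
# Row B16 of QR: the degree of a vertex is the number of darts
-/

namespace QRB74

open QR QRB Classical

theorem st_B16 : ST_B16 := by
  intro D _ m v
  haveI : Finite m.Vert := Quotient.finite _
  haveI : Fintype m.Vert := Fintype.ofFinite _
  unfold SPR.deg
  rw [finsum_eq_sum_of_fintype]
  have h1 : Nat.card {d : D // m.tail d = v} =
      Nat.card (Σ y : m.Vert, {d : D // m.tail d = v ∧ m.tail (m.opp d) = y}) := by
    refine Nat.card_congr ⟨fun d => ⟨m.tail (m.opp d.1), ⟨d.1, d.2, rfl⟩⟩,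
      fun p => ⟨p.2.1, p.2.2.1⟩, ?_, ?_⟩
    · intro d
      rfl
    · rintro ⟨y, d, hd, hy⟩
      subst hy
      rfl
  rw [h1, Nat.card_sigma]
  rfl

end QRB74
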